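import Pool.Agent.Helper93.KS.St

/-!
# Project KS, module VB: a bound for the product of the box densities
-/

set_option autoImplicit false

noncomputable section

namespace Pool.Agent.Helper88.KS

open Finset Filter Topology Pool.Agent.Helper93.KS
open Pool.Agent.Helper15.AB (ee Kl StDB StMT)
open Pool.Agent.Helper9.TW (gm Qs fm StMER StC9)
open Pool.Agent.Helper18.TR (StLevel)
open Pool.Agent.Helper93.KP (gk vk tk rn gn TK qk StC8P StVLP StRTS StWEI)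

private theorem gm_nn (j : ℕ) (hj : 1 ≤ j) : 0 ≤ gm j := by
  have h1 : (0 : ℝ) < j := by exact_mod_cast hj
  unfold gm
  apply Real.log_nonneg
  rw [le_div_iff₀ h1]
  linarith

private theorem gm_up (j : ℕ) (hj : 1 ≤ j) : gm j ≤ 1 / j := by
  have h1 : (0 : ℝ) < j := by exact_mod_cast hj
  unfold gm
  have h2 : (0 : ℝ) < ((j : ℝ) + 1) / j := by positivity
  have h3 := Real.log_le_sub_one_of_pos h2
  have h4 : ((j : ℝ) + 1) / j - 1 = 1 / j := by
    field_simp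
    ring
  rw [h4] at h3
  exact h3

private theorem main (κ j0 : ℕ) (hκ : κ ≤ 2) (h8 : 8 ≤ j0) : ∀ d : ℕ,
    (((j0 : ℝ) - 2) * ((j0 : ℝ) - 1)) / ((((j0 + d : ℕ) : ℝ) - 2) * (((j0 + d : ℕ) : ℝ) - 1)) ≤
      VV κ j0 (j0 + d) := by
  have h8' : (8 : ℝ) ≤ j0 := by exact_mod_cast h8
  intro d
  induction d with
  | zero =>
    have h1 : VV κ j0 (j0 + 0) = 1 := by
      unfold VV
      simp
    rw [h1, Nat.add_zero, div_self]
    exact (mul_pos (by linarith) (by linarith)).ne'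
  | succ d ih =>
    have hd : (0 : ℝ) ≤ d := Nat.cast_nonneg d
    have h1 : VV κ j0 (j0 + (d + 1)) = VV κ j0 (j0 + d) * (1 - (κ : ℝ) * gm (j0 + d)) := by
      unfold VV
      rw [← Nat.add_assoc, Finset.prod_Ico_succ_top (by omega)]
    have hj : 1 ≤ j0 + d := by omega
    have hκ' : (κ : ℝ) ≤ 2 := by exact_mod_cast hκ
    have h2 : (κ : ℝ) * gm (j0 + d) ≤ 2 * (1 / ((j0 + d : ℕ) : ℝ)) :=
      mul_le_mul hκ' (gm_up _ hj) (gm_nn _ hj) (by norm_num)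
    push_cast at ih h2 ⊢
    have hp : (0 : ℝ) < (j0 : ℝ) + d := by linarith
    have h3 : 1 - (2 : ℝ) / ((j0 : ℝ) + d) ≤ 1 - (κ : ℝ) * gm (j0 + d) := by
      rw [mul_one_div] at h2
      linarith
    have h4 : 1 - (2 : ℝ) / ((j0 : ℝ) + d) = ((j0 : ℝ) + d - 2) / ((j0 : ℝ) + d) := by
      field_simp
    rw [h4] at h3
    have h5 : (0 : ℝ) ≤ ((j0 : ℝ) + d - 2) / ((j0 : ℝ) + d) :=
      div_nonneg (by linarith) hp.le
    have h6 : (0 : ℝ) ≤ (((j0 : ℝ) - 2) * ((j0 : ℝ) - 1)) / (((j0 : ℝ) + d - 2) * ((j0 : ℝ) + d - 1)) :=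
      div_nonneg (mul_nonneg (by linarith) (by linarith)) (mul_nonneg (by linarith) (by linarith))
    rw [h1]
    refine le_trans (le_of_eq ?_) (mul_le_mul ih h3 h5 (le_trans h6 ih))
    have e1 : (j0 : ℝ) + d - 2 ≠ 0 := by
      have : (0 : ℝ) < (j0 : ℝ) + d - 2 := by linarith
      exact this.ne'
    have e2 : (j0 : ℝ) + d - 1 ≠ 0 := by
      have : (0 : ℝ) < (j0 : ℝ) + d - 1 := by linarith
      exact this.ne'
    have e3 : (j0 : ℝ) + d ≠ 0 := hp.ne'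
    have e4 : (j0 : ℝ) + (d + 1) - 2 = (j0 : ℝ) + d - 1 := by ring
    have e5 : (j0 : ℝ) + (d + 1) - 1 = (j0 : ℝ) + d := by ring
    rw [e4, e5]
    field_simp

theorem hVB : StVB := by
  intro κ j0 j hκ h8 hj
  obtain ⟨d, rfl⟩ := Nat.exists_eq_add_of_le hj
  refine le_trans ?_ (main κ j0 hκ h8 d)
  have h8' : (8 : ℝ) ≤ j0 := by exact_mod_cast h8
  have hd : (0 : ℝ) ≤ d := Nat.cast_nonneg d
  push_cast
  have p1 : (0 : ℝ) < (j0 : ℝ) + d - 2 := by linarith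
  have p2 : (0 : ℝ) < (j0 : ℝ) + d - 1 := by linarith
  have p3 : (0 : ℝ) < (j0 : ℝ) + d := by linarith
  have h1 : ((j0 : ℝ) / ((j0 : ℝ) + d)) ^ 2 / 2 = ((j0 : ℝ) ^ 2 / 2) / ((j0 : ℝ) + d) ^ 2 := by
    field_simp
  rw [h1]
  refine div_le_div₀ (mul_nonneg (by linarith) (by linarith)) ?_ (mul_pos p1 p2) ?_
  · nlinarith
  · nlinarith

end Pool.Agent.Helper88.KS
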